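import Pool.Agent.H741.EL.Stm

set_option autoImplicit false
open MeasureTheory Metric Set Filter Topology

namespace Pool.Agent.H230.EL

open Pool.Agent.Y508 Pool.Agent.H741.EL

theorem sup_arc {N : Set ℝ} (hN : IsClosed N) {x y : ℝ} (hxy : x ≤ y) (hx : x ∈ N) :
    ∃ β, x ≤ β ∧ β ≤ y ∧ Icc x β ⊆ N ∧ ∀ t, x ≤ t → t ≤ y → Icc x t ⊆ N → t ≤ β := by
  set S : Set ℝ := {t | x ≤ t ∧ t ≤ y ∧ Icc x t ⊆ N} with hS
  have hxS : x ∈ S := by
    refine ⟨le_rfl, hxy, ?_⟩
    intro z hz
    have : z = x := le_antisymm hz.2 hz.1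
    rw [this]
    exact hx
  have hbd : BddAbove S := ⟨y, fun t ht => ht.2.1⟩
  have hxb : x ≤ sSup S := le_csSup hbd hxS
  have hSN : S ⊆ N := fun t ht => ht.2.2 ⟨ht.1, le_rfl⟩
  have hbN : sSup S ∈ N :=
    closure_minimal hSN hN (csSup_mem_closure ⟨x, hxS⟩ hbd)
  refine ⟨sSup S, hxb, csSup_le ⟨x, hxS⟩ fun t ht => ht.2.1, ?_, fun t h1 h2 h3 =>
    le_csSup hbd ⟨h1, h2, h3⟩⟩
  intro z hz
  rcases eq_or_lt_of_le hz.2 with h | h
  · rw [h]; exact hbN
  · obtain ⟨t, ht, hzt⟩ := exists_lt_of_lt_csSup ⟨x, hxS⟩ h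
    exact ht.2.2 ⟨hz.1, hzt.le⟩

theorem inf_arc {N : Set ℝ} (hN : IsClosed N) {x y : ℝ} (hxy : y ≤ x) (hx : x ∈ N) :
    ∃ α, α ≤ x ∧ y ≤ α ∧ Icc α x ⊆ N ∧ ∀ t, t ≤ x → y ≤ t → Icc t x ⊆ N → α ≤ t := by
  obtain ⟨β, h1, h2, h3, h4⟩ := sup_arc (N := (fun z => -z) ⁻¹' N)
    (hN.preimage continuous_neg) (x := -x) (y := -y) (by linarith) (by simpa using hx)
  refine ⟨-β, by linarith, by linarith, ?_, ?_⟩
  · intro z hz
    have h5 : -z ∈ Icc (-x) β := ⟨by linarith [hz.2], by linarith [hz.1]⟩
    have h6 := h3 h5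
    simpa using h6
  · intro t h5 h6 h7
    have h8 := h4 (-t) (by linarith) (by linarith) (by
      intro z hz
      apply h7
      exact ⟨by linarith [hz.2], by linarith [hz.1]⟩)
    linarith

theorem ip_int (x : E2) (θ : ℝ) (k : ℤ) : ip x (θ + k * (2 * Real.pi)) = ip x θ := by
  unfold ip
  rw [Real.cos_add_int_mul_two_pi, Real.sin_add_int_mul_two_pi]

theorem hs_int (K : Set E2) (θ : ℝ) (k : ℤ) : hs K (θ + k * (2 * Real.pi)) = hs K θ := by
  unfold hs
  simp only [ip_int]

theorem t_ARC (h1 : S_ELL) (h2 : S_QQ) (h3 : S_DICH) : S_ARC := by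
  intro a b p K hC θp hpq
  have hb := hC.hb
  have hab := hC.hab
  have ha : 0 < a := hb.trans_le hab
  obtain ⟨hBE, hintE, hfrE, hvolE, hhsE, hbE, hseg1, hseg2⟩ := h1 a b hC.hb hC.hab
  obtain ⟨hq1, hq2, hq3, hq4, hq5, hq6, hq7, hq8, hq9⟩ := h2 a b hC.hb hC.hab
  have hpi := Real.pi_pos
  have hle : ∀ θ, hs K θ ≤ hE a b θ := fun θ => by
    rw [← hhsE θ]; exact hs_mono hBE.cpt hC.body.ne hC.sub θ
  have hper : ∀ θ, hE a b (θ + 2 * Real.pi) = hE a b θ := by
    intro θ; unfold hE; rw [Real.cos_add_two_pi, Real.sin_add_two_pi]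
  have hcE : Continuous (hE a b) := by unfold hE; fun_prop
  have hcl : IsClosed {θ | hs K θ = hE a b θ} := isClosed_eq (cont_hs hC.body.cpt) hcE
  have hp0 : hs K θp = hE a b θp := by
    apply le_antisymm (hle θp)
    rw [← hq2 θp, ← hpq]
    exact le_hs hC.body.cpt hC.mem θp
  obtain ⟨β, hb1, hb2, hb3, hb4⟩ := sup_arc hcl (x := θp) (y := θp + 2 * Real.pi)
    (by linarith) hp0
  obtain ⟨α, ha1, ha2, ha3, ha4⟩ := inf_arc hcl (x := θp) (y := θp - 2 * Real.pi)
    (by linarith) hp0
  have hon : ∀ θ ∈ Icc α β, hs K θ = hE a b θ := by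
    intro θ hθ
    rcases le_total θ θp with h | h
    · exact ha3 ⟨hθ.1, h⟩
    · exact hb3 ⟨h, hθ.2⟩
  by_cases hlen : β - α < Real.pi
  · left
    refine ⟨α, β, ha1, hb1, hlen, hon, ?_⟩
    intro θ hθ
    by_contra hcon
    have hθN : hs K θ = hE a b θ := le_antisymm (hle θ) (not_lt.1 hcon)
    rcases h3 a b p K hC θp θ (hb1.trans_lt hθ.1) (hθ.2.trans_le (by linarith)) hp0 hθN with h | h
    · have := hb4 θ (hb1.trans hθ.1.le) (by linarith [hθ.2]) h
      linarith [hθ.1]
    · have := ha4 (θ - 2 * Real.pi) (by linarith [hθ.2]) (by linarith [hθ.1]) (by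
        intro z hz
        have h5 := h (z + 2 * Real.pi) ⟨by linarith [hz.1], by linarith [hz.2]⟩
        rw [hs_two_pi, hper] at h5
        exact h5)
      linarith [hθ.2]
  · right
    push Not at hlen
    have hqK : ∀ θ ∈ Icc α (α + Real.pi), qE a b θ ∈ K := by
      intro θ hθ
      obtain ⟨x, hx, hxe⟩ := exists_hs hC.body.cpt hC.body.ne θ
      have h4 := hon θ ⟨hθ.1, by linarith [hθ.2]⟩
      have h5 := hq5 θ x (hC.sub hx) (by rw [← hxe, h4])
      rw [← h5]
      exact hx
    -- the linear functional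
    set u : E2 := qE a b α with hu
    have hhE : ∀ θ, 0 < hE a b θ := fun θ => hb.trans_le (hbE θ)
    have hu0 : u 0 = a ^ 2 * Real.cos α / hE a b α := rfl
    have hu1 : u 1 = b ^ 2 * Real.sin α / hE a b α := rfl
    have hnu : qE a b (α + Real.pi) = -u := by
      have h4 : hE a b (α + Real.pi) = hE a b α := by
        unfold hE
        rw [Real.cos_add_pi, Real.sin_add_pi, neg_sq, neg_sq]
      have h5 : qE a b (α + Real.pi) = pt (-(u 0)) (-(u 1)) := by
        unfold qE
        rw [h4, Real.cos_add_pi, Real.sin_add_pi, hu0, hu1]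
        congr 1 <;> ring
      rw [h5]
      ext i
      fin_cases i
      · simp
      · simp
    have huK : u ∈ K := hqK α ⟨le_rfl, by linarith⟩
    have hnuK : -u ∈ K := by
      rw [← hnu]
      exact hqK _ ⟨by linarith, le_rfl⟩
    set L : E2 → ℝ := fun x => u 0 * x 1 - u 1 * x 0 with hL
    have hub : (u 0 / a) ^ 2 + (u 1 / b) ^ 2 = 1 := hq1 α
    have hv : pt (-(u 1)) (u 0) ≠ 0 := by
      intro h0
      have h4 : u 0 = 0 := by
        have := congrFun (congrArg (fun z : E2 => (z : Fin 2 → ℝ)) h0) 1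
        simpa using this
      have h5 : u 1 = 0 := by
        have := congrFun (congrArg (fun z : E2 => (z : Fin 2 → ℝ)) h0) 0
        simpa using this
      rw [h4, h5] at hub
      norm_num at hub
    obtain ⟨ν, hν⟩ := exists_pos_ev _ hv
    have hvp : 0 < ‖pt (-(u 1)) (u 0)‖ := norm_pos_iff.2 hv
    have hLip : ∀ x : E2, L x = ‖pt (-(u 1)) (u 0)‖ * ip x ν := by
      intro x
      have h4 : inner ℝ x (pt (-(u 1)) (u 0)) = L x := by
        rw [inner_E2]
        simp only [hL, pt_zero, pt_one]
        ring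
      rw [← h4]
      conv_lhs => rw [hν]
      rw [real_inner_smul_right, inner_ev]
    have hLq : ∀ θ, L (qE a b θ) = a ^ 2 * b ^ 2 * Real.sin (θ - α) / (hE a b α * hE a b θ) := by
      intro θ
      have e0 : qE a b θ 0 = a ^ 2 * Real.cos θ / hE a b θ := rfl
      have e1 : qE a b θ 1 = b ^ 2 * Real.sin θ / hE a b θ := rfl
      have h4 := (hhE α).ne'
      have h5 := (hhE θ).ne'
      simp only [hL]
      rw [e0, e1, hu0, hu1, Real.sin_sub]
      field_simp
    -- the half ellipse is in `K`
    have hHK : {x | x ∈ Ell a b ∧ 0 ≤ ip x ν} ⊆ K := by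
      rintro x ⟨hxE, hxν⟩
      have hLx : 0 ≤ L x := by rw [hLip]; exact mul_nonneg hvp.le hxν
      apply mem_of_ip_le hC.body.cpt hC.body.cvx hC.body.ne
      -- reduction to one period
      suffices hred : ∀ θ ∈ Ico α (α + 2 * Real.pi), ip x θ ≤ hs K θ by
        intro θ
        have h4 : θ = toIcoMod Real.two_pi_pos α θ +
            (toIcoDiv Real.two_pi_pos α θ : ℤ) * (2 * Real.pi) := by
          have := toIcoMod_add_toIcoDiv_zsmul Real.two_pi_pos α θ
          rw [zsmul_eq_mul] at this
          exact this.symm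
        rw [h4, ip_int, hs_int]
        exact hred _ (toIcoMod_mem_Ico Real.two_pi_pos α θ)
      intro θ hθ
      rcases le_or_gt θ (α + Real.pi) with h | h
      · rw [hon θ ⟨hθ.1, by linarith⟩, ← hhsE θ]
        exact le_hs hBE.cpt hxE θ
      · have hsin : Real.sin (θ - α) < 0 := by
          have h5 : Real.sin (θ - α) = -Real.sin (θ - α - Real.pi) := by
            rw [Real.sin_sub_pi, neg_neg]
          rw [h5]
          have h6 := Real.sin_pos_of_pos_of_lt_pi (x := θ - α - Real.pi) (by linarith)
            (by linarith [hθ.2])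
          linarith
        have hLqn : L (qE a b θ) < 0 := by
          rw [hLq]
          apply div_neg_of_neg_of_pos
          · have : 0 < a ^ 2 * b ^ 2 := by positivity
            nlinarith
          · exact mul_pos (hhE _) (hhE _)
        -- the point of the segment on the line
        set q : E2 := qE a b θ with hq
        set s : ℝ := L x / (L x - L q) with hs'
        have hden : 0 < L x - L q := by linarith
        have hs0 : 0 ≤ s := div_nonneg hLx hden.le
        have hs1 : s ≤ 1 := by rw [hs', div_le_one hden]; linarith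
        set y : E2 := (1 - s) • x + s • q with hy
        have hqE : q ∈ Ell a b := by
          have h5 : (q 0 / a) ^ 2 + (q 1 / b) ^ 2 = 1 := hq1 θ
          exact le_of_eq h5
        have hyE : y ∈ Ell a b := hBE.cvx hxE hqE (by linarith) hs0 (by ring)
        have hLy : L y = 0 := by
          have h5 : L y = (1 - s) * L x + s * L q := by
            simp only [hL, hy, PiLp.add_apply, PiLp.smul_apply, smul_eq_mul]
            ring
          rw [h5, hs']
          field_simp
          ring
        have hyip : ip x θ ≤ ip y θ := by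
          have h5 : ip y θ = (1 - s) * ip x θ + s * ip q θ := by
            rw [hy, ip_add, ip_smul, ip_smul]
          have h6 : ip x θ ≤ ip q θ := by
            rw [hq, hq2 θ, ← hhsE θ]
            exact le_hs hBE.cpt hxE θ
          rw [h5]
          nlinarith
        -- `y` is a multiple of `u`
        obtain ⟨c, hc, hyc⟩ : ∃ c : ℝ, |c| ≤ 1 ∧ y = c • u := by
          set c : ℝ := (u 0 * y 0) / a ^ 2 + (u 1 * y 1) / b ^ 2 with hcdef
          have hLy' : u 0 * y 1 - u 1 * y 0 = 0 := hLy
          have hub' : u 0 ^ 2 / a ^ 2 + u 1 ^ 2 / b ^ 2 = 1 := by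
            rw [← hub]
            ring
          have e0 : y 0 = c * u 0 := by
            have : c * u 0 = y 0 * (u 0 ^ 2 / a ^ 2 + u 1 ^ 2 / b ^ 2) +
                (u 1 / b ^ 2) * (u 0 * y 1 - u 1 * y 0) := by
              rw [hcdef]
              ring
            rw [this, hub', hLy']
            ring
          have e1 : y 1 = c * u 1 := by
            have : c * u 1 = y 1 * (u 0 ^ 2 / a ^ 2 + u 1 ^ 2 / b ^ 2) -
                (u 0 / a ^ 2) * (u 0 * y 1 - u 1 * y 0) := by
              rw [hcdef]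
              ring
            rw [this, hub', hLy']
            ring
          refine ⟨c, ?_, ?_⟩
          · have hyE' : (y 0 / a) ^ 2 + (y 1 / b) ^ 2 ≤ 1 := hyE
            rw [e0, e1] at hyE'
            have h7 : (c * u 0 / a) ^ 2 + (c * u 1 / b) ^ 2 = c ^ 2 := by
              have : (c * u 0 / a) ^ 2 + (c * u 1 / b) ^ 2 =
                c ^ 2 * ((u 0 / a) ^ 2 + (u 1 / b) ^ 2) := by ring
              rw [this, hub, mul_one]
            rw [h7] at hyE'
            exact (sq_le_one_iff_abs_le_one c).1 hyE'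
          · ext i
            fin_cases i
            · simpa using e0
            · simpa using e1
        have h8 : ip y θ ≤ |ip u θ| := by
          rw [hyc, ip_smul]
          calc c * ip u θ ≤ |c * ip u θ| := le_abs_self _
            _ = |c| * |ip u θ| := abs_mul _ _
            _ ≤ 1 * |ip u θ| := mul_le_mul_of_nonneg_right hc (abs_nonneg _)
            _ = |ip u θ| := one_mul _
        have h9 : |ip u θ| ≤ hs K θ := by
          apply abs_le'.2
          refine ⟨le_hs hC.body.cpt huK θ, ?_⟩
          rw [← ip_neg]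
          exact le_hs hC.body.cpt hnuK θ
        linarith
    refine ⟨ν, ?_⟩
    apply Set.Subset.antisymm _ hHK
    -- the area
    set H : Set E2 := {x | x ∈ Ell a b ∧ 0 ≤ ip x ν} with hH
    have hcν : Continuous fun x : E2 => ip x ν := cont_in ν
    have hHcl : IsClosed H := hBE.cpt.isClosed.inter (isClosed_le continuous_const hcν)
    have hKfin : volume K ≠ ⊤ := hC.body.cpt.measure_lt_top.ne
    have hHfin : volume H ≠ ⊤ := ((measure_mono hHK).trans_lt hC.body.cpt.measure_lt_top).ne
    have hvH : volume (Ell a b) ≤ volume H + volume H := by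
      have h4 : Ell a b ⊆ H ∪ (fun x : E2 => -x) ⁻¹' H := by
        intro x hx
        rcases le_total 0 (ip x ν) with h | h
        · exact Or.inl ⟨hx, h⟩
        · right
          refine ⟨?_, ?_⟩
          · have hx' : (x 0 / a) ^ 2 + (x 1 / b) ^ 2 ≤ 1 := hx
            show ((-x) 0 / a) ^ 2 + ((-x) 1 / b) ^ 2 ≤ 1
            have h5 : ((-x) 0 / a) ^ 2 + ((-x) 1 / b) ^ 2 = (x 0 / a) ^ 2 + (x 1 / b) ^ 2 := by
              simp only [PiLp.neg_apply]
              ring
            rw [h5]
            exact hx'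
          · rw [ip_neg]
            linarith
      have h5 : volume ((fun x : E2 => -x) ⁻¹' H) = volume H :=
        Measure.measure_preimage_neg volume H
      calc volume (Ell a b) ≤ volume (H ∪ (fun x : E2 => -x) ⁻¹' H) := measure_mono h4
        _ ≤ volume H + volume ((fun x : E2 => -x) ⁻¹' H) := measure_union_le _ _
        _ = volume H + volume H := by rw [h5]
    have hvH' : AA a b ≤ volume.real H := by
      have h4 : (volume (Ell a b)).toReal ≤ (volume H + volume H).toReal :=
        ENNReal.toReal_mono (ENNReal.add_ne_top.2 ⟨hHfin, hHfin⟩) hvH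
      rw [hvolE, ENNReal.toReal_ofReal (by positivity), ENNReal.toReal_add hHfin hHfin] at h4
      unfold AA
      have h5 : volume.real H = (volume H).toReal := rfl
      rw [h5]
      linarith
    intro x hxK
    by_contra hxH
    have hxν : ip x ν < 0 := by
      by_contra h
      exact hxH ⟨hC.sub hxK, not_lt.1 h⟩
    -- an interior point
    have hO : IsOpen {z : E2 | ip z ν < 0} := isOpen_lt hcν continuous_const
    have hxcl : x ∈ closure (interior K) := by
      rw [hC.body.cvx.closure_interior_eq_closure_of_nonempty_interior hC.body.int]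
      exact subset_closure hxK
    obtain ⟨z, hz1, hz2⟩ := mem_closure_iff.1 hxcl _ hO hxν
    have hpos : 0 < volume (K \ H) := by
      have h4 : {z : E2 | ip z ν < 0} ∩ interior K ⊆ K \ H := by
        rintro w ⟨hw1, hw2⟩
        exact ⟨interior_subset hw2, fun hw3 => absurd hw3.2 (not_le.2 hw1)⟩
      exact ((hO.inter isOpen_interior).measure_pos volume ⟨z, hz1, hz2⟩).trans_le
        (measure_mono h4)
    have hadd : volume.real K = volume.real H + volume.real (K \ H) := by
      have h4 : volume K = volume H + volume (K \ H) := by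
        rw [← measure_inter_add_sdiff K hHcl.measurableSet, inter_eq_self_of_subset_right hHK]
      have h5 : volume (K \ H) ≠ ⊤ := ((measure_mono sdiff_subset).trans_lt
        hC.body.cpt.measure_lt_top).ne
      show (volume K).toReal = (volume H).toReal + (volume (K \ H)).toReal
      rw [h4, ENNReal.toReal_add hHfin h5]
    have hpos' : 0 < volume.real (K \ H) := by
      have h5 : volume (K \ H) ≠ ⊤ := ((measure_mono sdiff_subset).trans_lt
        hC.body.cpt.measure_lt_top).ne
      exact ENNReal.toReal_pos hpos.ne' h5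
    have hvol := hC.vol
    linarith

end Pool.Agent.H230.EL
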